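import Pool.Agent.H287R3.RA.APb

/-!
# Symmetric progression-free sets: the exact growth rate
-/

set_option autoImplicit false

namespace Pool.Agent.Results.MP_b30443_co.SymmetricSets

open Finset Equiv Filter Topology

/-- `A ⊆ F_p^n` contains no nontrivial three-term progression `x, x + y, x + 2y` -/
def APFree {p n : ℕ} (A : Finset (Fin n → ZMod p)) : Prop :=
  ∀ x y : Fin n → ZMod p, x ∈ A → x + y ∈ A → x + 2 • y ∈ A → y = 0

/-- `A` is invariant under all permutations of the `n` coordinates -/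
def Sym {p n : ℕ} (A : Finset (Fin n → ZMod p)) : Prop :=
  ∀ (σ : Perm (Fin n)), ∀ x ∈ A, (fun i => x (σ i)) ∈ A

/-- the largest size of a symmetric subset of `F_p^n` without nontrivial three-term progressions -/
noncomputable def rsym (p n : ℕ) : ℕ :=
  sSup {t : ℕ | ∃ A : Finset (Fin n → ZMod p), APFree A ∧ Sym A ∧ A.card = t}

variable {p : ℕ} [hp : Fact p.Prime]

lemma bdd (n : ℕ) :
    BddAbove {t : ℕ | ∃ A : Finset (Fin n → ZMod p), APFree A ∧ Sym A ∧ A.card = t} := by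
  refine ⟨Fintype.card (Fin n → ZMod p), ?_⟩
  rintro t ⟨A, _, _, rfl⟩
  exact Finset.card_le_univ A

/-- For every odd prime `p` there is `C` such that for all `n ≥ 1`
`((p+1)/2)^n / (C n) ≤ rsym p n ≤ C n^C ((p+1)/2)^n`;
in particular `rsym p n ^ (1/n)` tends to `(p+1)/2`. -/
theorem result (p : ℕ) [Fact p.Prime] (hp2 : p ≠ 2) :
    (∃ C : ℕ, ∀ n : ℕ, 1 ≤ n → (rsym p n : ℝ) ≤ C * (n : ℝ) ^ C * (((p : ℝ) + 1) / 2) ^ n ∧
      (((p : ℝ) + 1) / 2) ^ n ≤ C * n * (rsym p n : ℝ)) ∧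
    Tendsto (fun n : ℕ => (rsym p n : ℝ) ^ (1 / (n : ℝ))) atTop (𝓝 (((p : ℝ) + 1) / 2)) := by
  have hpp : p.Prime := Fact.out
  obtain ⟨h, hph⟩ : ∃ h, p + 1 = 2 * h := by
    have h1 := hpp.eq_two_or_odd'.resolve_left hp2
    obtain ⟨k, hk⟩ := h1
    exact ⟨k + 1, by omega⟩
  have hh1 : 1 ≤ h := by omega
  have hhR : ((p : ℝ) + 1) / 2 = h := by
    have : ((p + 1 : ℕ) : ℝ) = ((2 * h : ℕ) : ℝ) := by rw [hph]
    push_cast at this
    linarith
  obtain ⟨C, hC⟩ := H287R3.RA.AP.upper (p := p) h hph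
  have hupper : ∀ n : ℕ, 1 ≤ n → rsym p n ≤ C * n ^ C * h ^ n := by
    intro n hn
    apply csSup_le'
    rintro t ⟨A, hA, hS, rfl⟩
    exact hC n A hn hA hS
  have hlower : ∀ n : ℕ, h ^ n ≤ (n * h ^ 2 + 1) * rsym p n := by
    intro n
    obtain ⟨A, hA, hS, hc⟩ := H287R3.RA.AP.lower (p := p) h hph n
    refine hc.trans (Nat.mul_le_mul_left _ ?_)
    exact le_csSup (bdd n) ⟨A, hA, hS, rfl⟩
  have hU : ∀ n : ℕ, 1 ≤ n → (rsym p n : ℝ) ≤ (C + h ^ 2 + 1 : ℕ) * (n : ℝ) ^ (C + h ^ 2 + 1) *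
      (h : ℝ) ^ n := by
    intro n hn
    have h1 : (rsym p n : ℝ) ≤ C * (n : ℝ) ^ C * (h : ℝ) ^ n := by exact_mod_cast hupper n hn
    have hnR : (1 : ℝ) ≤ n := by exact_mod_cast hn
    refine h1.trans ?_
    have h2 : (C : ℝ) ≤ ((C + h ^ 2 + 1 : ℕ) : ℝ) := by
      have : C ≤ C + h ^ 2 + 1 := by omega
      exact_mod_cast this
    have h3 : (n : ℝ) ^ C ≤ (n : ℝ) ^ (C + h ^ 2 + 1) := pow_le_pow_right₀ hnR (by omega)
    gcongr
  have hL : ∀ n : ℕ, 1 ≤ n → (h : ℝ) ^ n ≤ (C + h ^ 2 + 1 : ℕ) * n * (rsym p n : ℝ) := by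
    intro n hn
    have h1 : (h : ℝ) ^ n ≤ (n * (h : ℝ) ^ 2 + 1) * rsym p n := by exact_mod_cast hlower n
    have hnR : (1 : ℝ) ≤ n := by exact_mod_cast hn
    refine h1.trans ?_
    have h2 : (n * (h : ℝ) ^ 2 + 1) ≤ ((C + h ^ 2 + 1 : ℕ) : ℝ) * n := by
      push_cast
      have : (0 : ℝ) ≤ C := Nat.cast_nonneg C
      nlinarith
    gcongr
  refine ⟨⟨C + h ^ 2 + 1, fun n hn => ?_⟩, ?_⟩
  · rw [hhR]
    exact ⟨hU n hn, hL n hn⟩
  · rw [hhR]
    set D : ℕ := C + h ^ 2 + 1 with hD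
    have hDpos : (0 : ℝ) < D := by
      have : 0 < D := by omega
      exact_mod_cast this
    have hhpos : (0 : ℝ) < h := by exact_mod_cast hh1
    have hu : Tendsto (fun n : ℕ => (n : ℝ) ^ (1 / (n : ℝ))) atTop (𝓝 1) :=
      tendsto_rpow_div.comp tendsto_natCast_atTop_atTop
    have hc : Tendsto (fun n : ℕ => (D : ℝ) ^ (1 / (n : ℝ))) atTop (𝓝 1) := by
      have h1 : Tendsto (fun n : ℕ => (D : ℝ) ^ (1 / (n : ℝ))) atTop (𝓝 ((D : ℝ) ^ (0 : ℝ))) :=
        tendsto_const_nhds.rpow tendsto_one_div_atTop_nhds_zero_nat (Or.inl hDpos.ne')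
      rwa [Real.rpow_zero] at h1
    have hup : Tendsto (fun n : ℕ => (D : ℝ) ^ (1 / (n : ℝ)) * ((n : ℝ) ^ (1 / (n : ℝ))) ^ D * h)
        atTop (𝓝 h) := by
      have := (hc.mul (hu.pow D)).mul_const (h : ℝ)
      simpa using this
    have hlo : Tendsto (fun n : ℕ => (h : ℝ) / ((D : ℝ) ^ (1 / (n : ℝ)) * (n : ℝ) ^ (1 / (n : ℝ))))
        atTop (𝓝 h) := by
      have h1 := (tendsto_const_nhds (x := (h : ℝ)) (f := (atTop : Filter ℕ))).div
        (hc.mul hu) (by norm_num)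
      rw [mul_one, div_one] at h1
      exact h1
    refine tendsto_of_tendsto_of_tendsto_of_le_of_le' hlo hup ?_ ?_
    · filter_upwards [eventually_ge_atTop 1] with n hn
      have hnR : (0 : ℝ) < n := by exact_mod_cast hn
      have hr0 : (0 : ℝ) ≤ rsym p n := Nat.cast_nonneg _
      rw [div_le_iff₀ (by positivity)]
      have h1 := Real.rpow_le_rpow (by positivity) (hL n hn) (show (0 : ℝ) ≤ 1 / (n : ℝ) by positivity)
      rw [Real.mul_rpow (by positivity) hr0, Real.mul_rpow (by positivity) (by positivity), one_div,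
        Real.pow_rpow_inv_natCast (by positivity) (by omega), ← one_div] at h1
      linarith
    · filter_upwards [eventually_ge_atTop 1] with n hn
      have hnR : (0 : ℝ) < n := by exact_mod_cast hn
      have hr0 : (0 : ℝ) ≤ rsym p n := Nat.cast_nonneg _
      have h1 := Real.rpow_le_rpow hr0 (hU n hn) (show (0 : ℝ) ≤ 1 / (n : ℝ) by positivity)
      rw [Real.mul_rpow (by positivity) (by positivity),
        Real.mul_rpow (by positivity) (by positivity)] at h1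
      have e1 : ((h : ℝ) ^ n) ^ (1 / (n : ℝ)) = h := by
        rw [one_div]
        exact Real.pow_rpow_inv_natCast (by positivity) (by omega)
      have e2 : ((n : ℝ) ^ (C + h ^ 2 + 1)) ^ (1 / (n : ℝ)) =
          ((n : ℝ) ^ (1 / (n : ℝ))) ^ (C + h ^ 2 + 1) := by
        rw [← Real.rpow_natCast, ← Real.rpow_natCast, ← Real.rpow_mul hnR.le,
          ← Real.rpow_mul hnR.le, mul_comm]
      rw [e1, e2] at h1
      exact h1

end Pool.Agent.Results.MP_b30443_co.SymmetricSets
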